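import Pool.Agent.Lib.A53.PowerS

/-! MP_a53e25_nt. Base 2 pseudoprimes `n` for which the order of 2 modulo `n` has few prime
factors. -/

set_option autoImplicit false

namespace Pool.Agent.Results.MP_a53e25_nt.FewDivisors

/-- For all `K ≥ 1`, `C > 0`, `ε > 0` and all large `N`, at most `N ^ (1 - 1 / (4 K) + ε)` base 2
pseudoprimes `n` up to `N` are such that the order of 2 modulo `n` (a divisor of `n - 1`) has at most
`C (log log N) ^ K` distinct prime factors. -/
theorem result (K C ε : ℝ) (hK : 1 ≤ K) (hC : 0 < C) (hε : 0 < ε) :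
    ∀ᶠ N : ℕ in Filter.atTop,
      (({n : ℕ | n ≤ N ∧ Nat.FermatPsp n 2 ∧
        ((orderOf (2 : ZMod n)).primeFactors.card : ℝ) ≤
          C * (Real.log (Real.log N)) ^ K}.ncard : ℕ) : ℝ) ≤
        (N : ℝ) ^ (1 - 1 / (4 * K) + ε) :=
  A53.few_order K C ε hK hC hε

end Pool.Agent.Results.MP_a53e25_nt.FewDivisors
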