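import Pool.Agent.Lib.A53.PowerS

/-! MP_a53e25_nt. Base 2 pseudoprimes with few prime factors. -/

set_option autoImplicit false

namespace Pool.Agent.Results.MP_a53e25_nt.FewPrimeFactors

/-- For every `c` with `0 ≤ c < 1`, every `ε > 0` and all large `N`, at most `N ^ ((3 + c) / 4 + ε)`
base 2 pseudoprimes up to `N` have at most `(log N) ^ c` distinct prime factors. -/
theorem result (c ε : ℝ) (hc0 : 0 ≤ c) (hc1 : c < 1) (hε : 0 < ε) :
    ∀ᶠ N : ℕ in Filter.atTop,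
      (({n : ℕ | n ≤ N ∧ Nat.FermatPsp n 2 ∧
        (n.primeFactors.card : ℝ) ≤ (Real.log N) ^ c}.ncard : ℕ) : ℝ) ≤
        (N : ℝ) ^ ((3 + c) / 4 + ε) :=
  A53.few_primes_log c ε hc0 hc1 hε

end Pool.Agent.Results.MP_a53e25_nt.FewPrimeFactors
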