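import Pool.Agent.Lib.PspSplit.Count

/-! MP_a53e25_nt. Few base 2 pseudoprimes `n` have a large order of `2` modulo `n`. -/

set_option autoImplicit false

namespace Pool.Agent.Results.MP_a53e25_nt.SmallOrder

/-- For every `k ≥ 1` and all real `x, y ≥ 1` there are at most
`2 (1 + log x) ^ 2 (x ^ (1 - 1 / (2 k - 1)) + x / y ^ (1 - 1 / k))` base 2 pseudoprimes `n ≤ x` for which
the order of `2` modulo `n` is at least `y`; consequently, for all real `x > 1` and `y ≥ 1`, at most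
`4 (1 + log x) ^ 2 (x / y) exp (2 (log y) ^ 2 / log x)`. -/
theorem result :
    (∀ (k : ℕ) (x y : ℝ), 1 ≤ k → 1 ≤ x → 1 ≤ y →
      (({n : ℕ | (n : ℝ) ≤ x ∧ Nat.FermatPsp n 2 ∧ y ≤ (orderOf (2 : ZMod n) : ℝ)}.ncard : ℕ) : ℝ) ≤
        2 * (1 + Real.log x) ^ 2 *
          (x ^ (1 - 1 / (2 * (k : ℝ) - 1)) + x / y ^ (1 - 1 / (k : ℝ)))) ∧
    (∀ x y : ℝ, 1 < x → 1 ≤ y →
      (({n : ℕ | (n : ℝ) ≤ x ∧ Nat.FermatPsp n 2 ∧ y ≤ (orderOf (2 : ZMod n) : ℝ)}.ncard : ℕ) : ℝ) ≤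
        4 * (1 + Real.log x) ^ 2 * (x / y) * Real.exp (2 * Real.log y ^ 2 / Real.log x)) :=
  ⟨PspSplit.sharp, PspSplit.uniform⟩

end Pool.Agent.Results.MP_a53e25_nt.SmallOrder
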