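import Pool.Agent.Lib.PspOrd.S9

/-!
# MP_a53e25_nt: many base 2 pseudoprimes need many primes `p` with smooth `ord_p(2)`

`Nat.FermatPsp n 2`: `n > 1` is composite and `n ∣ 2 ^ (n - 1) - 1`.
-/

namespace Pool.Agent.Results.MP_a53e25_nt.SmoothOrders

/-- Let `0 < ε ≤ 1`. For all large `x`: if there are at least `x ^ (1 - ε / 1024)` base 2 pseudoprimes up to `x`, then
there is `y` with `(log x) ^ (1 / ε) ≤ y ≤ x` such that for at least `y ^ (1 - ε)` primes `p ≤ y` the order of `2`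
modulo `p` has no prime factor `> y ^ ε`. -/
theorem result (ε : ℝ) (hε : 0 < ε) (hε1 : ε ≤ 1) :
    ∀ᶠ x : ℝ in Filter.atTop,
      x ^ (1 - ε / 1024) ≤ (({n : ℕ | (n : ℝ) ≤ x ∧ Nat.FermatPsp n 2}.ncard : ℕ) : ℝ) →
      ∃ y : ℝ, Real.log x ^ (1 / ε) ≤ y ∧ y ≤ x ∧
        y ^ (1 - ε) ≤ (({p : ℕ | (p : ℝ) ≤ y ∧ p.Prime ∧
          ∀ q : ℕ, q.Prime → q ∣ orderOf (2 : ZMod p) → (q : ℝ) ≤ y ^ ε}.ncard : ℕ) : ℝ) :=
  PspOrd.smooth_point ε hε hε1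

end Pool.Agent.Results.MP_a53e25_nt.SmoothOrders
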